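import Pool.Agent.helper84.TP.SpecA

/-! Row tp:SUP (helper57): finitely many statements are enough. -/

set_option autoImplicit false

namespace Pool.Agent.TP

open Function Turing Turing.PartrecToTM2 Relation

theorem SUP : SUP_stmt := by
  classical
  intro c
  have hsup := tr_supports c Cont'.halt
  have h1 : trNormal c Cont'.halt ∈ codeSupp c Cont'.halt := hsup.1
  have h2 : ∀ l ∈ codeSupp c Cont'.halt,
      TM2.SupportsStmt (codeSupp c Cont'.halt) (tr l) := hsup.2
  let B : Finset Sm := (codeSupp c Cont'.halt).biUnion fun l => TM2.stmts₁ (tr l)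
  have hB : ∀ l ∈ codeSupp c Cont'.halt, ∀ q ∈ TM2.stmts₁ (tr l), q ∈ B := fun l hl q hq =>
    Finset.mem_biUnion.2 ⟨l, hl, hq⟩
  have hBs : ∀ q ∈ B, ∀ q' ∈ TM2.stmts₁ q, q' ∈ B := by
    intro q hq q' hq'
    obtain ⟨l, hl, h⟩ := Finset.mem_biUnion.1 hq
    exact hB l hl q' (TM2.stmts₁_trans h hq')
  have hBg : ∀ q ∈ B, TM2.SupportsStmt (codeSupp c Cont'.halt) q := by
    intro q hq
    obtain ⟨l, hl, h⟩ := Finset.mem_biUnion.1 hq
    exact TM2.stmts₁_supportsStmt_mono h (h2 l hl)
  refine ⟨insert (TM2.Stmt.halt : Sm) (B : Set Sm), ?_, ?_, ?_, ?_⟩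
  · exact Set.Finite.insert _ B.finite_toSet
  · exact Set.mem_insert_of_mem _ (hB _ h1 _ TM2.stmts₁_self)
  · exact Set.mem_insert _ _
  · intro q hq v S C' hC
    rcases Set.mem_insert_iff.1 hq with rfl | hq
    · simp [mic] at hC
    · have hq : q ∈ B := hq
      refine Set.mem_insert_of_mem _ ?_
      show C'.1 ∈ B
      cases q with
      | push k f q =>
        simp only [mic, Option.some.injEq] at hC
        subst hC
        refine hBs _ hq _ ?_
        simp [TM2.stmts₁, TM2.stmts₁_self]
      | peek k f q =>
        simp only [mic, Option.some.injEq] at hC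
        subst hC
        refine hBs _ hq _ ?_
        simp [TM2.stmts₁, TM2.stmts₁_self]
      | pop k f q =>
        simp only [mic, Option.some.injEq] at hC
        subst hC
        refine hBs _ hq _ ?_
        simp [TM2.stmts₁, TM2.stmts₁_self]
      | load a q =>
        simp only [mic, Option.some.injEq] at hC
        subst hC
        refine hBs _ hq _ ?_
        simp [TM2.stmts₁, TM2.stmts₁_self]
      | branch f q₁ q₂ =>
        simp only [mic, Option.some.injEq] at hC
        subst hC
        refine hBs _ hq _ ?_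
        cases f v
        · simp [TM2.stmts₁, TM2.stmts₁_self]
        · simp [TM2.stmts₁, TM2.stmts₁_self]
      | goto l =>
        simp only [mic, Option.some.injEq] at hC
        subst hC
        have h3 := hBg _ hq
        exact hB _ (h3 v) _ TM2.stmts₁_self
      | halt => simp [mic] at hC

end Pool.Agent.TP
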